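import Mathlib
import Pool.Agent.H432.TC.AbcQ
import Pool.Agent.H432.AQ.Irr

set_option autoImplicit false

/-!
# The abc conjecture is equivalent to Vojta's conjecture with truncated counting function on the
# curves (of any genus) over the rational numbers, of bounded degree, of all smooth varieties

`X ⊂ ℙ^(M - 1)` is a smooth projective variety over `ℚ` of dimension `n ≥ 1` (the equations `G i`
generate its prime ideal) and `D = D_1 + ⋯ + D_q` is a divisor with normal crossings on `X`, where
`D_i` is the intersection of `X` with the common zeros of forms `F i j` of degree `δ i`.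

Vojta's conjecture with truncated counting function is the inequality
`h_K(x) + h_D(x) ≤ N^(1)_S(D, x) + ε h(x) + C` for the points `x` of `X(ℚ)` outside of a proper closed
subset of `X`. We consider it for the rational points on curves of arbitrary genus: a curve on `X` over
`ℚ` of complexity at most `N` is given by a plane curve `P = 0` of degree at most `N`, irreducible
over `ℚ`, and a rational map `φ = (φ_1 : ⋯ : φ_M)` from it to `X`, where the `φ_l` are
polynomials over `ℚ` of degree at most `N` in the two coordinates, and its points are the `φ(z)`, where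
`z` is a point of the plane curve with coordinates in `ℚ`. The proper closed subset `Z` of `X` depends
only on `X`, `D` and `N`, and the inequality holds for all curves which are not contained in `Z ∪ D`,
all finite sets `S` of primes and all `ε > 0`. The constant `C` depends on the curve, `S` and `ε`.

The theorem: this holds for all `X`, `D`, `N` over `ℚ` if and only if the abc conjecture holds. Only
rational points and the abc conjecture for integers are used, no other number fields.
-/

namespace Pool.Agent.Results.MP_7aad9f_nt.AllCurvesOverQ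

open NumberField IsDedekindDomain MvPolynomial

/-- The absolute logarithmic height of a vector over `L`. -/
noncomputable def height {L : Type} [Field L] [NumberField L] {ι : Type} [Finite ι]
    (x : ι → L) : ℝ := Height.logHeight x / Module.finrank ℚ L

open Classical in
/-- `rad(P)`: the sum of `log N(v)` over the primes `v` at which the valuations of the three
coordinates of `P` are not all equal, divided by the degree of the field. -/
noncomputable def rad {K : Type} [Field K] [NumberField K] (P : Fin 3 → K) : ℝ :=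
  (∑ᶠ v : HeightOneSpectrum (𝓞 K), if ∀ i j, v.valuation K (P i) = v.valuation K (P j) then 0
    else Real.log (Ideal.absNorm v.asIdeal)) / Module.finrank ℚ K

/-- The abc inequality for the points over the number field `K` (used in the proof only). -/
def ABC (K : Type) [Field K] [NumberField K] : Prop :=
  ∀ ε : ℝ, 0 < ε → ∃ C : ℝ, ∀ P : Fin 3 → K, P 0 + P 1 + P 2 = 0 → P 0 * P 1 * P 2 ≠ 0 →
    height P < (1 + ε) * rad P + C

/-- The abc conjecture: for every `ε > 0` there is `κ` with `c ≤ κ R(abc) ^ (1 + ε)` for all coprime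
positive integers `a`, `b` and `c = a + b`, where `R` is the radical. -/
def ABCIntegers : Prop :=
  ∀ ε : ℝ, 0 < ε → ∃ κ : ℝ, ∀ a b c : ℕ, 0 < a → 0 < b → 0 < c → Nat.Coprime a b → a + b = c →
    (c : ℝ) ≤ κ * (((∏ p ∈ (a * b * c).primeFactors, p : ℕ) : ℝ)) ^ (1 + ε)

/-- The tangent space at `z` of the affine cone over the variety with the equations `G i`: the vectors
`v` with `∑ j, (∂_j G i)(z) v_j = 0` for all `i`. -/
noncomputable def tangentSpace {k Ω : Type} [Field k] [Field Ω] [Algebra k Ω] {M g : ℕ}
    (G : Fin g → MvPolynomial (Fin M) k) (z : Fin M → Ω) : Submodule Ω (Fin M → Ω) :=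
  ⨅ i, LinearMap.ker (∑ j, aeval z (pderiv j (G i)) • LinearMap.proj (R := Ω) (φ := fun _ => Ω) j)

/-- The variety with the equations `G i` is smooth of dimension `n`: at all points over all extension
fields the tangent space of the cone has dimension `n + 1`. -/
def IsSmooth {k : Type} [Field k] {M g : ℕ} (n : ℕ) (G : Fin g → MvPolynomial (Fin M) k) : Prop :=
  ∀ (Ω : Type) [Field Ω] [Algebra k Ω] (z : Fin M → Ω), z ≠ 0 → (∀ i, aeval z (G i) = 0) →
    Module.finrank Ω (tangentSpace G z) = n + 1

/-- The subschemes `D_i` of the (smooth) variety, where `D_i` has the equations `F i j`, have normal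
crossings: at each point `z` of the variety over each extension field one can choose for every `i` one
of the equations `F i j` such that the differentials of the chosen equations of those `D_i` which
contain `z` are linearly independent on the tangent space. -/
def IsNormalCrossings {k : Type} [Field k] {M g q w : ℕ}
    (G : Fin g → MvPolynomial (Fin M) k) (F : Fin q → Fin w → MvPolynomial (Fin M) k) : Prop :=
  ∀ (Ω : Type) [Field Ω] [Algebra k Ω] (z : Fin M → Ω), z ≠ 0 → (∀ i, aeval z (G i) = 0) →
    ∃ J : Fin q → Fin w, ∀ c : Fin q → Ω,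
      (∀ i, c i ≠ 0 → ∀ j, aeval z (F i j) = 0) →
      (∀ v ∈ tangentSpace G z, ∑ i, c i * ∑ l, aeval z (pderiv l (F i (J i))) * v l = 0) → c = 0

/-- The point `φ(z)` for a point `z` of the plane: its coordinates are the values of the polynomials
`φ l` at `z`. -/
noncomputable def curvePoint {R : Type} [CommRing R] {M : ℕ} (φ : Fin M → MvPolynomial (Fin 2) R)
    (z : Fin 2 → R) : Fin M → R := fun l => eval z (φ l)

/-- A curve of complexity at most `N` on the variety with the equations `G i`, given by the plane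
curve `P = 0` over `L` and the rational map `φ`: `P` is irreducible over `L`, the degrees of `P` and of
the `φ l` are at most `N`, and the `G i (φ)` vanish on the curve `P = 0`. -/
def IsCurve {k L : Type} [Field k] [Field L] [Algebra k L] {M g : ℕ}
    (G : Fin g → MvPolynomial (Fin M) k) (N : ℕ) (P : MvPolynomial (Fin 2) L)
    (φ : Fin M → MvPolynomial (Fin 2) L) : Prop :=
  Irreducible P ∧ P.totalDegree ≤ N ∧ (∀ l, (φ l).totalDegree ≤ N) ∧ ∀ i, P ∣ aeval φ (G i)

/-- The columns of `A` are a basis of the tangent space of the cone at `x` (for a smooth variety of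
dimension `n`). -/
def IsTangentBasis {k L : Type} [Field k] [Field L] [Algebra k L] {M g n : ℕ}
    (G : Fin g → MvPolynomial (Fin M) k) (x : Fin M → L) (A : Matrix (Fin M) (Fin (n + 1)) L) :
    Prop :=
  LinearIndependent L A.col ∧ ∀ c, A.col c ∈ tangentSpace G x

/-- The height `h_K(x)` for the canonical class `K` of the variety: the Gauss map `γ` sends a point to
its embedded tangent space, `γ^* O(1) = K + (n + 1) H` for the hyperplane class `H`; `h_K(x)` is the
height of the vector of the maximal minors of a basis `A` of the tangent space minus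
`(n + 1) h(x)`. -/
noncomputable def canonicalHeight {L : Type} [Field L] [NumberField L] {M n : ℕ} (x : Fin M → L)
    (A : Matrix (Fin M) (Fin (n + 1)) L) : ℝ :=
  height (fun J : Fin (n + 1) → Fin M => (A.submatrix J id).det) - (n + 1) * height x

/-- The height `h_D(x) = ∑ i, h_{D_i}(x)`, where `h_{D_i}(x) = δ i h(x) - h(F i 0 (x) : F i 1 (x) : …)`:
the forms `F i j` are sections of `δ i H` with the fixed part `D_i` and without further base
points. -/
noncomputable def divisorHeight {k L : Type} [Field k] [Field L] [NumberField L] [Algebra k L]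
    {M q w : ℕ} (F : Fin q → Fin w → MvPolynomial (Fin M) k) (δ : Fin q → ℕ) (x : Fin M → L) : ℝ :=
  ∑ i, (δ i * height x - height fun j => aeval x (F i j))

/-- The local height `λ_{D_i}(x) = log ((max_l |x_l|) ^ δ i / max_j |F i j (x)|)` for an absolute value
of `L`, where `D_i` has the equations `F i j` of degree `δ i`. -/
noncomputable def localHeight {k L : Type} [Field k] [Field L] [NumberField L] [Algebra k L]
    {M w : ℕ} (f : AbsoluteValue L ℝ) (F : Fin w → MvPolynomial (Fin M) k) (δ : ℕ)
    (x : Fin M → L) : ℝ :=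
  Real.log ((⨆ l, f (x l)) ^ δ / ⨆ j, f (aeval x (F j)))

open Classical in
/-- The truncated counting function `N^(1)_S(D, x)`: the sum of `log N(v)` over the primes `v` which are
not in `S` and at which one of the local heights `λ_{D_i}(x)` is positive, divided by `[L : ℚ]`. -/
noncomputable def counting {k L : Type} [Field k] [Field L] [NumberField L] [Algebra k L]
    {M q w : ℕ} (S : Finset (HeightOneSpectrum (𝓞 L)))
    (F : Fin q → Fin w → MvPolynomial (Fin M) k) (δ : Fin q → ℕ) (x : Fin M → L) : ℝ :=
  (∑ᶠ v : HeightOneSpectrum (𝓞 L),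
    if v ∉ S ∧ ∃ i, 0 < localHeight (FinitePlace.mk v).1 (F i) (δ i) x then
      Real.log (Ideal.absNorm v.asIdeal) else 0) / Module.finrank ℚ L

/-- Vojta's conjecture with truncated counting function on the curves of bounded degree over `k`, for
all smooth varieties `X` (with the equations `G i`) and all normal crossings divisors `D` (with the
equations `F i j`) over `k`: for every `N` there is a form `Φ` which does not vanish on `X` such that
for all curves `(P, φ)` over `k` on `X` of complexity at most `N` which are not contained in the zero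
set of `Φ` and not contained in `D`, all finite sets `S` of primes of `k` and all `ε > 0` there is `C`
with `h_K(x) + h_D(x) ≤ N^(1)_S(D, x) + ε h(x) + C` for all points `x = φ(z)` outside `D`, where
`z ∈ k^2` is a point of the curve `P = 0` with `φ(z) ≠ 0`. -/
def VojtaCurves (k : Type) [Field k] [NumberField k] : Prop :=
  ∀ (n M g q w : ℕ), 1 ≤ n → ∀ (G : Fin g → MvPolynomial (Fin M) k) (e : Fin g → ℕ),
    (∀ i, (G i).IsHomogeneous (e i)) → (Ideal.span (Set.range G)).IsPrime → IsSmooth n G →
    ∀ (F : Fin q → Fin w → MvPolynomial (Fin M) k) (δ : Fin q → ℕ),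
    (∀ i j, (F i j).IsHomogeneous (δ i)) → IsNormalCrossings G F → ∀ N : ℕ,
    ∃ (m : ℕ) (Φ : MvPolynomial (Fin M) k), Φ ∉ Ideal.span (Set.range G) ∧ Φ.IsHomogeneous m ∧
      ∀ (P : MvPolynomial (Fin 2) k) (φ : Fin M → MvPolynomial (Fin 2) k), IsCurve G N P φ →
      ¬ P ∣ aeval φ Φ → (∀ i, ∃ j, ¬ P ∣ aeval φ (F i j)) →
      ∀ (S : Finset (HeightOneSpectrum (𝓞 k))) (ε : ℝ), 0 < ε →
      ∃ C : ℝ, ∀ z : Fin 2 → k, eval z P = 0 → curvePoint φ z ≠ 0 →
        (∀ i, ∃ j, aeval (curvePoint φ z) (F i j) ≠ 0) →
        ∀ A : Matrix (Fin M) (Fin (n + 1)) k, IsTangentBasis G (curvePoint φ z) A →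
        canonicalHeight (curvePoint φ z) A + divisorHeight F δ (curvePoint φ z) ≤
          counting S F δ (curvePoint φ z) + ε * height (curvePoint φ z) + C

theorem mem_tangentSpace {k Ω : Type} [Field k] [Field Ω] [Algebra k Ω] {M g : ℕ}
    {G : Fin g → MvPolynomial (Fin M) k} {z v : Fin M → Ω} :
    v ∈ tangentSpace G z ↔ ∀ i, ∑ j, aeval z (pderiv j (G i)) * v j = 0 := by
  unfold tangentSpace
  rw [Submodule.mem_iInf]
  refine forall_congr' fun i => ?_
  rw [LinearMap.mem_ker, LinearMap.sum_apply]
  rfl

theorem tangentSpace_eq {k Ω : Type} [Field k] [Field Ω] [Algebra k Ω] {M g : ℕ}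
    (G : Fin g → MvPolynomial (Fin M) k) (z : Fin M → Ω) :
    tangentSpace G z = Pool.Agent.N750.TS G z := by
  ext v
  rw [mem_tangentSpace, Pool.Agent.N750.mem_TS]

theorem rad_eq {K : Type} [Field K] [NumberField K] (P : Fin 3 → K) :
    rad P = Pool.Agent.Q290.NF.wt (Pool.Agent.H432.TC.NE3 P) / Module.finrank ℚ K := by
  unfold rad Pool.Agent.Q290.NF.wt
  congr 1
  refine finsum_congr fun v => ?_
  by_cases h : ∀ i j, v.valuation K (P i) = v.valuation K (P j)
  · rw [if_pos h, Pool.Agent.Q290.NF.ind_neg fun h' => h' h]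
  · rw [if_neg h, Pool.Agent.Q290.NF.ind_pos (P := Pool.Agent.H432.TC.NE3 P) h]
    rfl

/-- a local height is positive -/
theorem localHeight_pos {k L : Type} [Field k] [Field L] [NumberField L] [Algebra k L]
    {M w : ℕ} (v : HeightOneSpectrum (𝓞 L)) (F : Fin w → MvPolynomial (Fin M) k) (δ : ℕ)
    (x : Fin M → L) (hx : x ≠ 0) (hxF : ∃ j, aeval x (F j) ≠ 0) :
    0 < localHeight (FinitePlace.mk v).1 F δ x ↔
      ∀ j, Pool.Agent.W180.OP.av (Sum.inr v : Pool.Agent.W180.OP.Pl L) (aeval x (F j)) <
        Pool.Agent.W180.OP.nrm (Pool.Agent.W180.OP.av (Sum.inr v : Pool.Agent.W180.OP.Pl L)) x ^ δ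
    := by
  set f := Pool.Agent.W180.OP.av (Sum.inr v : Pool.Agent.W180.OP.Pl L) with hf
  obtain ⟨j0, hj0⟩ := hxF
  have hF0 : (fun j => aeval x (F j)) ≠ 0 := fun h => hj0 (congrFun h j0)
  have h1 := Pool.Agent.W180.OP.nrm_pos f hx
  have h2 := Pool.Agent.W180.OP.nrm_pos f hF0
  have e1 : localHeight (FinitePlace.mk v).1 F δ x = Real.log (Pool.Agent.W180.OP.nrm f x ^ δ /
      Pool.Agent.W180.OP.nrm f (fun j => aeval x (F j))) := rfl
  rw [e1, Real.log_pos_iff (by positivity), one_lt_div h2]
  constructor
  · intro h j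
    exact (Pool.Agent.W180.OP.le_nrm f (fun j => aeval x (F j)) j).trans_lt h
  · intro h
    obtain ⟨j, hj⟩ := Pool.Agent.W180.OP.exists_nrm f j0.pos (fun j => aeval x (F j))
    rw [← hj]
    exact h j

theorem counting_eq {k L : Type} [Field k] [Field L] [NumberField L] [Algebra k L]
    {M q w : ℕ} (S : Finset (HeightOneSpectrum (𝓞 L)))
    (F : Fin q → Fin w → MvPolynomial (Fin M) k) (δ : Fin q → ℕ) (x : Fin M → L) (hx : x ≠ 0)
    (hxF : ∀ i, ∃ j, aeval x (F i j) ≠ 0) :
    counting S F δ x = Pool.Agent.Q290.NF.wt (fun v => v ∉ S ∧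
      Pool.Agent.H432.TC.DM F δ x v) / Module.finrank ℚ L := by
  unfold counting Pool.Agent.Q290.NF.wt
  congr 1
  refine finsum_congr fun v => ?_
  have h1 : (∃ i, 0 < localHeight (FinitePlace.mk v).1 (F i) (δ i) x) ↔
      Pool.Agent.H432.TC.DM F δ x v := by
    unfold Pool.Agent.H432.TC.DM
    exact exists_congr fun i => localHeight_pos v (F i) (δ i) x hx (hxF i)
  by_cases h : v ∉ S ∧ Pool.Agent.H432.TC.DM F δ x v
  · rw [if_pos (by rw [h1]; exact h), Pool.Agent.Q290.NF.ind_pos
      (P := fun v => v ∉ S ∧ Pool.Agent.H432.TC.DM F δ x v) h]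
    rfl
  · rw [if_neg (by rw [h1]; exact h), Pool.Agent.Q290.NF.ind_neg
      (P := fun v => v ∉ S ∧ Pool.Agent.H432.TC.DM F δ x v) h]

/-- the abc conjecture implies the inequality on curves -/
theorem of_abc (L : Type) [Field L] [NumberField L] (habc : ABC L) : VojtaCurves L := by
  classical
  intro n M g q w hn G e hG hI hX F δ hF hD N
  obtain ⟨n', rfl⟩ : ∃ n', n = n' + 1 := ⟨n - 1, by omega⟩
  have hsm : Pool.Agent.N750.Sm (n' + 1) G := by
    intro Ω _ _ z hz hzG
    rw [← tangentSpace_eq]
    exact hX Ω z hz hzG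
  have hnc : Pool.Agent.H432.RC.NCD G F := by
    intro Ω _ _ z hz hzG
    obtain ⟨J, hJ⟩ := hD Ω z hz hzG
    refine ⟨J, fun c hc hv => hJ c hc fun v hvm => hv v ?_⟩
    rw [← tangentSpace_eq]
    exact hvm
  obtain ⟨m, Φ, hΦm, hΦI, hmain⟩ := Pool.Agent.H432.AQ.main_irr G e hG hI hsm F δ hF hnc N
  refine ⟨m, Φ, hΦI, hΦm, ?_⟩
  intro P φ hc hz hD' S ε hε
  have hd : (0 : ℝ) < Module.finrank ℚ L := by exact_mod_cast Module.finrank_pos
  have hthin : Pool.Agent.Results.MP_4d5ce1_nt.ThinSetsSuffice.ThinPoints L 0 := by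
    refine (Pool.Agent.Results.MP_4d5ce1_nt.ThinSetsSuffice.result L 0).2.2 ?_
    refine Pool.Agent.H432.TC.abc_all fun ε' hε' => ?_
    obtain ⟨C, hC⟩ := habc ε' hε'
    refine ⟨C, fun P h0 h1 => ?_⟩
    have h2 := hC P h0 h1
    rw [rad_eq] at h2
    exact h2
  have hall : ∀ ε : ℝ, 0 < ε → ∃ C : ℝ, ∀ u : L, Pool.Agent.Q290.NF.Gen u⁻¹ →
      (1 - ε) * Height.logHeight₁ u⁻¹ ≤
        Pool.Agent.Q290.NF.wt (fun v => Pool.Agent.Q290.NF.Near u⁻¹ v) + C := by
    intro ε' hε'
    obtain ⟨C, hC⟩ := Pool.Agent.Results.MP_4d5ce1_nt.ThinSetsSuffice.thin_engine hthin ε' hε'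
    refine ⟨C, fun u hu => ?_⟩
    have h1 := hC u
    rw [Pool.Agent.Q290.NF.tv_zero] at h1
    exact h1 hu
  obtain ⟨C, hC⟩ := hmain L hall P φ hc.1 hc.2.1 hc.2.2.1 hc.2.2.2 hz hD' S ε hε
  refine ⟨C / Module.finrank ℚ L, fun s hs hx0 hsF A hA => ?_⟩
  have hTB : Pool.Agent.N750.IsTB G (curvePoint φ s) (fun l c => A l c) := by
    refine ⟨hA.1, fun c => ?_⟩
    rw [← tangentSpace_eq]
    exact hA.2 c
  have h1 := hC s hs hx0 hsF (fun l c => A l c) hTB
  unfold Pool.Agent.H432.AC.LHS at h1
  have e0 : Pool.Agent.H432.AC.pt φ s = curvePoint φ s := rfl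
  rw [e0] at h1
  rw [counting_eq S F δ _ hx0 hsF]
  have e1 : Pool.Agent.N750.mv (fun l c => A l c) =
      fun J : Fin (n' + 1 + 1) → Fin M => (A.submatrix J id).det := rfl
  rw [e1] at h1
  unfold canonicalHeight divisorHeight height
  set D : ℝ := (Module.finrank ℚ L : ℝ) with hDdef
  have e2 : ∑ i, ((δ i : ℝ) * (Height.logHeight (curvePoint φ s) / D) -
      Height.logHeight (fun j => aeval (curvePoint φ s) (F i j)) / D) =
      (∑ i, ((δ i : ℝ) * Height.logHeight (curvePoint φ s) -
      Height.logHeight (fun j => aeval (curvePoint φ s) (F i j)))) / D := by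
    rw [Finset.sum_div]
    exact Finset.sum_congr rfl fun i _ => by ring
  rw [e2]
  have h3 := div_le_div_of_nonneg_right h1 hd.le
  push_cast
  calc _ = (Height.logHeight (fun J : Fin (n' + 1 + 1) → Fin M => (A.submatrix J id).det) -
        (n' + 2) * Height.logHeight (curvePoint φ s) +
        ∑ i, ((δ i : ℝ) * Height.logHeight (curvePoint φ s) -
        Height.logHeight (fun j => aeval (curvePoint φ s) (F i j)))) / D := by ring
    _ ≤ _ := h3
    _ = _ := by ring

/-- the inequality on curves implies the abc conjecture -/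
theorem to_abc (k : Type) [Field k] [NumberField k] (h : VojtaCurves k) : ABC k := by
  classical
  set G : Fin 0 → MvPolynomial (Fin 2) k := fun i => i.elim0 with hG
  have hrange : Set.range G = ∅ := Set.range_eq_empty G
  have hI : (Ideal.span (Set.range G)).IsPrime := by
    rw [hrange, Ideal.span_empty]
    exact Ideal.isPrime_bot
  have hTS : ∀ (Ω : Type) [Field Ω] [Algebra k Ω] (z : Fin 2 → Ω), tangentSpace G z = ⊤ := by
    intro Ω _ _ z
    unfold tangentSpace
    exact iInf_of_empty _
  have hX : IsSmooth 1 G := by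
    intro Ω _ _ z _ _
    rw [hTS, finrank_top, Module.finrank_fin_fun]
  set F : Fin 3 → Fin 1 → MvPolynomial (Fin 2) k := fun i _ => ![X 0, X 1, X 0 + X 1] i with hF
  have hFh : ∀ i j, (F i j).IsHomogeneous 1 := by
    intro i j
    fin_cases i
    · exact isHomogeneous_X _ _
    · exact isHomogeneous_X _ _
    · exact (isHomogeneous_X _ _).add (isHomogeneous_X _ _)
  have hF0 : ∀ {Ω : Type} [Field Ω] [Algebra k Ω] (z : Fin 2 → Ω),
      aeval z (F 0 0) = z 0 := by
    intro Ω _ _ z
    show aeval z (X 0 : MvPolynomial (Fin 2) k) = z 0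
    rw [aeval_X]
  have hF1 : ∀ {Ω : Type} [Field Ω] [Algebra k Ω] (z : Fin 2 → Ω),
      aeval z (F 1 0) = z 1 := by
    intro Ω _ _ z
    show aeval z (X 1 : MvPolynomial (Fin 2) k) = z 1
    rw [aeval_X]
  have hF2 : ∀ {Ω : Type} [Field Ω] [Algebra k Ω] (z : Fin 2 → Ω),
      aeval z (F 2 0) = z 0 + z 1 := by
    intro Ω _ _ z
    show aeval z (X 0 + X 1 : MvPolynomial (Fin 2) k) = z 0 + z 1
    rw [map_add, aeval_X, aeval_X]
  have hNC : IsNormalCrossings G F := by
    intro Ω _ _ z hz _
    refine ⟨fun _ => 0, fun c hc hv => ?_⟩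
    have e0 : ∀ v : Fin 2 → Ω, ∑ l, aeval z (pderiv l (F 0 0)) * v l = v 0 := by
      intro v
      show ∑ l, aeval z (pderiv l (X 0 : MvPolynomial (Fin 2) k)) * v l = v 0
      rw [Fin.sum_univ_two, pderiv_X_self, pderiv_X_of_ne (by decide)]
      simp
    have e1 : ∀ v : Fin 2 → Ω, ∑ l, aeval z (pderiv l (F 1 0)) * v l = v 1 := by
      intro v
      show ∑ l, aeval z (pderiv l (X 1 : MvPolynomial (Fin 2) k)) * v l = v 1
      rw [Fin.sum_univ_two, pderiv_X_self, pderiv_X_of_ne (by decide)]
      simp
    have e2 : ∀ v : Fin 2 → Ω, ∑ l, aeval z (pderiv l (F 2 0)) * v l = v 0 + v 1 := by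
      intro v
      show ∑ l, aeval z (pderiv l (X 0 + X 1 : MvPolynomial (Fin 2) k)) * v l = v 0 + v 1
      rw [Fin.sum_univ_two]
      simp only [map_add]
      rw [pderiv_X_self, pderiv_X_self, pderiv_X_of_ne (by decide), pderiv_X_of_ne (by decide)]
      simp
    have hv' : ∀ v : Fin 2 → Ω, c 0 * v 0 + c 1 * v 1 + c 2 * (v 0 + v 1) = 0 := by
      intro v
      have h1 := hv v (by rw [hTS]; exact Submodule.mem_top)
      rw [Fin.sum_univ_three, e0, e1, e2] at h1
      exact h1
    have a1 := hv' ![1, 0]
    have a2 := hv' ![0, 1]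
    simp at a1 a2
    have hc2 : c 2 = 0 := by
      by_contra hne
      have hc0 : c 0 ≠ 0 := fun h0 => hne (by rw [h0, zero_add] at a1; exact a1)
      have b1 := hc 0 hc0 0
      have b2 := hc 2 hne 0
      rw [hF0] at b1
      rw [hF2, b1, zero_add] at b2
      apply hz
      funext i
      fin_cases i
      · exact b1
      · exact b2
    rw [hc2, add_zero] at a1 a2
    funext i
    fin_cases i
    · exact a1
    · exact a2
    · exact hc2
  obtain ⟨m, Φ, hΦI, hΦh, hΦ⟩ := h 1 2 0 3 1 le_rfl G (fun i => i.elim0) (fun i => i.elim0) hI hX F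
    (fun _ => 1) hFh hNC 1
  rw [hrange, Ideal.span_empty, Ideal.mem_bot] at hΦI
  set P0 : MvPolynomial (Fin 2) k := X 1 with hP0
  set φ : Fin 2 → MvPolynomial (Fin 2) k := ![X 0, 1] with hφ
  have hcL : ∀ z : Fin 2 → k, curvePoint φ z = ![z 0, 1] := by
    intro z
    funext l
    fin_cases l
    · show eval z (X 0 : MvPolynomial (Fin 2) k) = z 0
      rw [eval_X]
    · show eval z (1 : MvPolynomial (Fin 2) k) = 1
      rw [map_one]
  have hirr : ∀ (Ω : Type) [Field Ω], Irreducible (X 1 : MvPolynomial (Fin 2) Ω) := fun Ω _ =>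
    (MvPolynomial.X_prime).irreducible
  have hrc : IsCurve G 1 P0 φ := by
    refine ⟨?_, ?_, ?_, fun i => i.elim0⟩
    · rw [hP0]
      exact hirr _
    · rw [hP0, totalDegree_X]
    · intro l
      fin_cases l
      · show (X 0 : MvPolynomial (Fin 2) k).totalDegree ≤ 1
        rw [totalDegree_X]
      · show (1 : MvPolynomial (Fin 2) k).totalDegree ≤ 1
        rw [totalDegree_one]
        exact zero_le_one
  have hz1 : ¬ P0 ∣ aeval φ Φ := by
    rintro ⟨R, hR⟩
    -- the form vanishes at all points `(a : 1)`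
    have hval : ∀ a : k, aeval (![a, 1] : Fin 2 → k) Φ = 0 := by
      intro a
      have h1 := congrArg (eval ![algebraMap k k a, 0]) hR
      rw [map_mul, hP0, eval_X] at h1
      have h2 : (![algebraMap k k a, 0] : Fin 2 → k) 1 = 0 := rfl
      rw [h2, zero_mul] at h1
      have h3 := MvPolynomial.comp_aeval_apply φ
        ((MvPolynomial.aeval (![algebraMap k k a, 0] : Fin 2 → k) :
          MvPolynomial (Fin 2) k →ₐ[k] k).restrictScalars k) Φ
      have h4 : eval ![algebraMap k k a, 0] (aeval φ Φ) =
          aeval (curvePoint φ ![algebraMap k k a, 0]) Φ := h3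
      have h5 : curvePoint φ ![algebraMap k k a, 0] =
          fun i => algebraMap k k ((![a, 1] : Fin 2 → k) i) := by
        rw [hcL]
        funext i
        fin_cases i
        · rfl
        · exact (map_one _).symm
      rw [h4, h5, Pool.Agent.H432.RC.aeval_am] at h1
      exact (map_eq_zero _).1 h1
    have hmul : ∀ z : Fin 2 → k, aeval z (X 1 * Φ) = 0 := by
      intro z
      rw [map_mul, aeval_X]
      by_cases hz : z 1 = 0
      · rw [hz, zero_mul]
      · have h6 : z = fun i => z 1 * (![z 0 / z 1, 1] : Fin 2 → k) i := by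
          funext i
          fin_cases i
          · show z 0 = z 1 * (z 0 / z 1)
            field_simp
          · show z 1 = z 1 * 1
            ring
        have h7 : aeval z Φ = 0 := by
          rw [h6, Pool.Agent.H432.RC.aeval_hom hΦh, hval, mul_zero]
        rw [h7, mul_zero]
    have h8 : (X 1 * Φ : MvPolynomial (Fin 2) k) = 0 :=
      MvPolynomial.funext fun z => by
        rw [map_zero]
        exact hmul z
    rcases mul_eq_zero.1 h8 with h9 | h9
    · exact (X_ne_zero (1 : Fin 2)) h9
    · exact hΦI h9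
  have hz2 : ∀ i, ∃ j, ¬ P0 ∣ aeval φ (F i j) := by
    intro i
    refine ⟨0, ?_⟩
    rintro ⟨R, hR⟩
    have h1 := congrArg (eval ![1, 0]) hR
    rw [map_mul, hP0, eval_X] at h1
    have h2 : (![1, 0] : Fin 2 → k) 1 = 0 := rfl
    rw [h2, zero_mul] at h1
    have h3 := MvPolynomial.comp_aeval_apply φ
      ((MvPolynomial.aeval (![1, 0] : Fin 2 → k) :
        MvPolynomial (Fin 2) k →ₐ[k] k).restrictScalars k) (F i 0)
    have h4 : eval ![1, 0] (aeval φ (F i 0)) = aeval (curvePoint φ ![1, 0]) (F i 0) := h3
    rw [h4, hcL] at h1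
    revert h1
    fin_cases i
    · show aeval _ (F 0 0) ≠ 0
      rw [hF0]
      exact one_ne_zero
    · show aeval _ (F 1 0) ≠ 0
      rw [hF1]
      exact one_ne_zero
    · show aeval _ (F 2 0) ≠ 0
      rw [hF2]
      show (1 : k) + 1 ≠ 0
      rw [one_add_one_eq_two]
      exact two_ne_zero
  have hd : (0 : ℝ) < Module.finrank ℚ k := by exact_mod_cast Module.finrank_pos
  intro ε hε
  obtain ⟨C, hC⟩ := hΦ P0 φ hrc hz1 hz2 ∅ (ε / (1 + ε)) (by positivity)
  -- the height of P
  set A3 : Fin 3 × Fin 2 → k := fun x => ![![1, 0], ![0, 1], ![-1, -1]] x.1 x.2 with hA3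
  set C1 : ℝ := (Height.totalWeight k * Real.log (Nat.card (Fin 2)) + Height.logHeight A3) /
    Module.finrank ℚ k with hC1
  refine ⟨(1 + ε) * |C| + |C1| + 1, fun P hP0' hP1 => ?_⟩
  set s : Fin 2 → k := ![P 0 / P 1, 1] with hs
  set z0 : Fin 2 → k := ![P 0 / P 1, 0] with hz0
  have hne : ∀ i, P i ≠ 0 := by
    intro i hi
    apply hP1
    fin_cases i
    · rw [show P 0 = 0 from hi, zero_mul, zero_mul]
    · rw [show P 1 = 0 from hi, mul_zero, zero_mul]
    · rw [show P 2 = 0 from hi, mul_zero]
  have hP1' : P 1 ≠ 0 := hne 1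
  have hs0 : s ≠ 0 := fun h0 => one_ne_zero (congrFun h0 1)
  have hcs : curvePoint φ z0 = s := hcL z0
  have hsum : s 0 + s 1 = -(P 2 / P 1) := by
    show P 0 / P 1 + 1 = -(P 2 / P 1)
    field_simp
    linear_combination hP0'
  have hsF : ∀ i, ∃ j, aeval (curvePoint φ z0) (F i j) ≠ 0 := by
    intro i
    refine ⟨0, ?_⟩
    rw [hcs]
    fin_cases i
    · show aeval _ (F 0 0) ≠ 0
      rw [hF0]
      exact div_ne_zero (hne 0) (hne 1)
    · show aeval _ (F 1 0) ≠ 0
      rw [hF1]
      exact one_ne_zero
    · show aeval _ (F 2 0) ≠ 0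
      rw [hF2, hsum]
      exact neg_ne_zero.2 (div_ne_zero (hne 2) (hne 1))
  have hTB : IsTangentBasis G (curvePoint φ z0) (1 : Matrix (Fin 2) (Fin (1 + 1)) k) := by
    refine ⟨?_, fun cc => by rw [hTS]; exact Submodule.mem_top⟩
    exact Matrix.linearIndependent_cols_iff_isUnit.2 isUnit_one
  have h1 := hC z0 (by rw [hP0, eval_X]; rfl) (by rw [hcs]; exact hs0) hsF
    (1 : Matrix (Fin 2) (Fin (1 + 1)) k) hTB
  rw [counting_eq ∅ F _ _ (by rw [hcs]; exact hs0) hsF] at h1
  rw [hcs] at h1 hsF
  have h2 : height s ≤ canonicalHeight s (1 : Matrix (Fin 2) (Fin (1 + 1)) k) +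
      divisorHeight F (fun _ => 1) s := by
    unfold canonicalHeight divisorHeight
    have e1 : ∀ i, height (fun j => aeval s (F i j)) = 0 := by
      intro i
      unfold height
      rw [Pool.Agent.N750.logHeight_one, zero_div]
    have e2 : 0 ≤ height (fun J : Fin (1 + 1) → Fin 2 =>
        ((1 : Matrix (Fin 2) (Fin (1 + 1)) k).submatrix J id).det) := by
      unfold height
      exact div_nonneg (Height.logHeight_nonneg _) hd.le
    simp only [e1]
    rw [Fin.sum_univ_three]
    push_cast
    linarith
  have h3 : Pool.Agent.Q290.NF.wt (fun v => v ∉ (∅ : Finset (HeightOneSpectrum (𝓞 k))) ∧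
      Pool.Agent.H432.TC.DM F (fun _ => 1) s v) / Module.finrank ℚ k ≤ rad P := by
    rw [rad_eq]
    refine div_le_div_of_nonneg_right ?_ hd.le
    refine Pool.Agent.Q290.NF.wt_mono (Pool.Agent.H432.TC.NE3_fin hne) ?_
    rintro v ⟨-, i, hi⟩ heq
    have h4 := hi 0
    rw [pow_one] at h4
    obtain ⟨l, hl⟩ := Pool.Agent.W180.OP.exists_nrm (Pool.Agent.W180.OP.av
      (Sum.inr v : Pool.Agent.W180.OP.Pl k)) (n := 2) (by norm_num) s
    rw [← hl] at h4
    have h5 : v.valuation k (aeval s (F i 0)) < v.valuation k (s l) :=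
      Pool.Agent.H432.TC.mk_lt_iff.1 h4
    have hdv : ∀ i, v.valuation k (P i / P 1) = 1 := by
      intro i
      rw [map_div₀, heq i 1]
      exact div_self ((Valuation.ne_zero_iff _).2 (hne 1))
    have h6 : v.valuation k (s l) = 1 := by
      fin_cases l
      · exact hdv 0
      · exact map_one _
    have h7 : v.valuation k (aeval s (F i 0)) = 1 := by
      fin_cases i
      · show v.valuation k (aeval s (F 0 0)) = _
        rw [hF0]
        exact hdv 0
      · show v.valuation k (aeval s (F 1 0)) = _
        rw [hF1]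
        exact map_one _
      · show v.valuation k (aeval s (F 2 0)) = _
        rw [hF2, hsum, Valuation.map_neg]
        exact hdv 2
    rw [h6, h7] at h5
    exact lt_irrefl _ h5
  have h8 : height P ≤ height s + |C1| := by
    have e1 := Height.logHeight_linearMap_apply_le A3 s
    have e2 : (fun j => ∑ i, A3 (j, i) * s i) = (P 1)⁻¹ • P := by
      funext j
      rw [Fin.sum_univ_two, Pi.smul_apply, smul_eq_mul]
      fin_cases j
      · show (1 : k) * (P 0 / P 1) + 0 * 1 = (P 1)⁻¹ * P 0
        field_simp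
        ring
      · show (0 : k) * (P 0 / P 1) + 1 * 1 = (P 1)⁻¹ * P 1
        field_simp
        ring
      · show (-1 : k) * (P 0 / P 1) + -1 * 1 = (P 1)⁻¹ * P 2
        field_simp
        linear_combination -hP0'
    rw [e2, Height.logHeight_smul_eq_logHeight _ (inv_ne_zero hP1')] at e1
    have e3 := div_le_div_of_nonneg_right e1 hd.le
    unfold height
    have e4 := le_abs_self C1
    rw [hC1] at e4
    rw [add_div] at e3
    linarith
  have h9 : height s ≤ rad P + ε / (1 + ε) * height s + C := by linarith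
  have h10 : height s ≤ (1 + ε) * rad P + (1 + ε) * C := by
    have e1 : height s * (1 / (1 + ε)) ≤ rad P + C := by
      have e2 : height s * (1 / (1 + ε)) = height s - ε / (1 + ε) * height s := by
        field_simp
        ring
      rw [e2]
      linarith
    have e3 := mul_le_mul_of_nonneg_left e1 (by linarith : (0 : ℝ) ≤ 1 + ε)
    have e4 : (1 + ε) * (height s * (1 / (1 + ε))) = height s := by field_simp
    rw [e4] at e3
    linarith
  have h11 := le_abs_self C
  have h12 : (1 + ε) * C ≤ (1 + ε) * |C| := mul_le_mul_of_nonneg_left h11 (by linarith)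
  linarith

/-- **The abc conjecture and Vojta's conjecture on curves over the rational numbers.** The
abc conjecture for integers is equivalent to Vojta's conjecture with truncated counting function for
the rational points on the curves over `ℚ` of bounded degree, of any genus, of all smooth projective
varieties over `ℚ` and all normal crossings divisors, with an exceptional set which depends only on
the variety, the divisor and the bound for the degree. -/
theorem result : ABCIntegers ↔ VojtaCurves ℚ := by
  constructor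
  · intro h
    refine of_abc ℚ fun ε hε => ?_
    obtain ⟨C, hC⟩ := Pool.Agent.H432.TC.abc_rat h ε hε
    refine ⟨C, fun P h0 h1 => ?_⟩
    rw [rad_eq]
    exact hC P h0 h1
  · intro h
    refine Pool.Agent.H432.TC.abc_int fun ε hε => ?_
    obtain ⟨C, hC⟩ := to_abc ℚ h ε hε
    refine ⟨C, fun P h0 h1 => ?_⟩
    have h2 := hC P h0 h1
    rw [rad_eq] at h2
    unfold height at h2
    rw [Module.finrank_self, Nat.cast_one, div_one, div_one] at h2
    exact h2.le

end Pool.Agent.Results.MP_7aad9f_nt.AllCurvesOverQ
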