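import Mathlib
import Pool.Agent.H423.AB.Amp
import Pool.Agent.H423.AB.Num

/-!
# Failures of the abc inequality multiply: an exponent beyond 2.4

For `ε > 0` and a positive integer `c` let `bad ε c` be the set of the `a` for which `(a, c - a, c)` is
a coprime triple violating `c ≤ R (a b c) ^ (1 + ε)`, and let `nbad N δ₀ ε c` be the set of those `a` in
`bad ε c` which are divisible by `N` and at most `δ₀ c`.

If the abc conjecture is false, then for all small `ε > 0` there are infinitely many `c` for which
even the smaller set has at least `ε ^ (-s)` elements: one violation produces many, slightly weaker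
violations with one and the same `c`, all of them near the cusp `a = 0` (archimedean and at the
primes dividing `N`). Here `s ≥ 0` is any number with `∑ 3 ≤ m ≤ M, (m - 2) m ^ (-s) > 1` for some `M`,
that is, any `s < 2.478...` (the solution of `ζ (s - 1) = 2 ζ (s)`), for instance `s = 12 / 5`.

So the abc conjecture holds if and only if, for a sequence of `ε` tending to zero, each large `c` has
fewer than `ε ^ (-s)` exceptional representations of this kind.

The proof: for `2 ≤ a' ≤ m - 1` the terms of the binomial expansion of `c ^ m = (a + b) ^ m` are divided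
into those which are divisible by `a ^ a'` and those which are divisible by `b ^ (m + 1 - a')`. The two
partial sums are the members of a new triple, whose radical is at most
`4 ^ m c ^ (m - 1) R (a b c)`. The composition semigroup of these maps is free, which is seen from
the first two coefficients of the expansions at zero and one.
-/

namespace Pool.Agent.Results.MP_7aad9f_nt.BinomialExceptions

open Pool.Agent.N746.Self Pool.Agent.H423.AB

/-- **The abc conjecture is equivalent to a bound for the number of the exceptional triples with the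
same largest member near a cusp.** -/
theorem result :
    (∀ (s : ℝ) (M : ℕ), 0 ≤ s → 1 < ∑ m ∈ Finset.Icc 3 M, ((m : ℝ) - 2) * (m : ℝ) ^ (-s) →
      ∀ N : ℕ, 1 ≤ N → ∀ δ₀ : ℝ, 0 < δ₀ →
        ((ABC fun _ _ _ => True) ↔
          ∀ δ : ℝ, 0 < δ → ∃ ε : ℝ, 0 < ε ∧ ε < δ ∧ ∃ B : ℕ, ∀ c : ℕ, B < c →
            ((nbad N δ₀ ε c).ncard : ℝ) < ε ^ (-s))) ∧
    (∀ N : ℕ, 1 ≤ N → ∀ δ₀ : ℝ, 0 < δ₀ →
        ((ABC fun _ _ _ => True) ↔
          ∀ δ : ℝ, 0 < δ → ∃ ε : ℝ, 0 < ε ∧ ε < δ ∧ ∃ B : ℕ, ∀ c : ℕ, B < c →
            ((nbad N δ₀ ε c).ncard : ℝ) < ε ^ (-(12 / 5 : ℝ)))) :=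
  ⟨fun s M hs0 hs N hN δ₀ hδ₀ => multiplicity s hs0 M hs N hN δ₀ hδ₀,
    fun N hN δ₀ hδ₀ => multiplicity (12 / 5) (by norm_num) 160 num N hN δ₀ hδ₀⟩

end Pool.Agent.Results.MP_7aad9f_nt.BinomialExceptions
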