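import Mathlib
import Pool.Agent.H584.SH.Main2

/-!
# Mazur's question on powers of numbers on the boundary plane `α + β + γ = 1`

Let `R` be the radical. Mazur asked for the number of the triples of coprime positive integers
`a + b = c ≤ X` with `R a ≤ a ^ α`, `R b ≤ b ^ β`, `R c ≤ c ^ γ`. For `α + β + γ < 1` there should
be only finitely many, which is the abc conjecture; for `α + β + γ > 1` there are many. We show that
there are infinitely many for all rational points of the boundary plane `α + β + γ = 1` (except for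
the trivial cases `γ = 0` and `γ = 1`). Nitaj's theorem on `3`-powerful numbers concerns the point
`(1/3, 1/3, 1/3)`, consecutive powerful numbers belong to `(0, 1/2, 1/2)`.

The proof uses the Padé approximants of `(1 - t) ^ N`: for `D = n + m + k + 1` there are polynomials
`A`, `B`, `C` of degrees `n`, `m`, `k` with `A - (1 - t) ^ (D - m) B = t ^ (D - k) C`, and for even
`n` they are positive on `[0, 1]`. For `x + y = z` one gets
`x ^ (D - k) z ^ k C(x/z) + y ^ (D - m) z ^ m B(x/z) = z ^ (D - n) z ^ n A(x/z)`. We let `y` and `z` be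
powers of two fixed numbers, such that `x` is divisible by a power of `2`, and such that `x / z` is
close to a root of `A` in `ℤ_p` and close to a root of `B` in `ℤ_q`.
-/

set_option autoImplicit false

namespace Pool.Agent.Results.MP_7aad9f_nt.MazurBoundary

/-- the radical `R(m)`: the product of the distinct primes dividing `m` -/
def R (m : ℕ) : ℕ := ∏ p ∈ m.primeFactors, p

/-- the triples `(a, b, c)` of coprime positive integers with `a + b = c` and `K R(a) ≤ a ^ α`,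
`K R(b) ≤ b ^ β`, `K R(c) ≤ c ^ γ` -/
def Triples (K α β γ : ℝ) : Set (ℕ × ℕ × ℕ) :=
  {t | 0 < t.1 ∧ 0 < t.2.1 ∧ Nat.Coprime t.1 t.2.1 ∧ t.1 + t.2.1 = t.2.2 ∧
    K * R t.1 ≤ (t.1 : ℝ) ^ α ∧ K * R t.2.1 ≤ (t.2.1 : ℝ) ^ β ∧ K * R t.2.2 ≤ (t.2.2 : ℝ) ^ γ}

lemma exists_den {α β γ : ℚ} (hα : 0 < α) (hβ : 0 < β) (hγ : 0 < γ) (h : α + β + γ = 1) :
    ∃ L u v w : ℕ, 0 < L ∧ 0 < u ∧ 0 < v ∧ 0 < w ∧ u + v + w = L ∧ (α : ℝ) = u / L ∧
      (β : ℝ) = v / L ∧ (γ : ℝ) = w / L := by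
  obtain ⟨a, ha⟩ := Int.eq_ofNat_of_zero_le (Rat.num_pos.2 hα).le
  obtain ⟨b, hb⟩ := Int.eq_ofNat_of_zero_le (Rat.num_pos.2 hβ).le
  obtain ⟨c, hc⟩ := Int.eq_ofNat_of_zero_le (Rat.num_pos.2 hγ).le
  have ha0 : 0 < a := by have := Rat.num_pos.2 hα; omega
  have hb0 : 0 < b := by have := Rat.num_pos.2 hβ; omega
  have hc0 : 0 < c := by have := Rat.num_pos.2 hγ; omega
  have e1 : α = (a : ℚ) / α.den := by
    conv_lhs => rw [← Rat.num_div_den α, ha]
    simp
  have e2 : β = (b : ℚ) / β.den := by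
    conv_lhs => rw [← Rat.num_div_den β, hb]
    simp
  have e3 : γ = (c : ℚ) / γ.den := by
    conv_lhs => rw [← Rat.num_div_den γ, hc]
    simp
  have d1 : (0 : ℚ) < α.den := by exact_mod_cast α.pos
  have d2 : (0 : ℚ) < β.den := by exact_mod_cast β.pos
  have d3 : (0 : ℚ) < γ.den := by exact_mod_cast γ.pos
  have p1 := α.pos
  have p2 := β.pos
  have p3 := γ.pos
  have f1 : α = ((a * β.den * γ.den : ℕ) : ℚ) / ((α.den * β.den * γ.den : ℕ) : ℚ) := by
    conv_lhs => rw [e1]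
    push_cast
    field_simp
  have f2 : β = ((α.den * b * γ.den : ℕ) : ℚ) / ((α.den * β.den * γ.den : ℕ) : ℚ) := by
    conv_lhs => rw [e2]
    push_cast
    field_simp
  have f3 : γ = ((α.den * β.den * c : ℕ) : ℚ) / ((α.den * β.den * γ.den : ℕ) : ℚ) := by
    conv_lhs => rw [e3]
    push_cast
    field_simp
  obtain ⟨L, hL⟩ : ∃ L, L = α.den * β.den * γ.den := ⟨_, rfl⟩
  obtain ⟨u, hu⟩ : ∃ u, u = a * β.den * γ.den := ⟨_, rfl⟩
  obtain ⟨v, hv⟩ : ∃ v, v = α.den * b * γ.den := ⟨_, rfl⟩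
  obtain ⟨w, hw⟩ : ∃ w, w = α.den * β.den * c := ⟨_, rfl⟩
  rw [← hL, ← hu] at f1
  rw [← hL, ← hv] at f2
  rw [← hL, ← hw] at f3
  have hL0 : 0 < L := by rw [hL]; positivity
  have hu0 : 0 < u := by rw [hu]; positivity
  have hv0 : 0 < v := by rw [hv]; positivity
  have hw0 : 0 < w := by rw [hw]; positivity
  have hL0' : (0 : ℚ) < L := by exact_mod_cast hL0
  have cast : ∀ {q : ℚ} {i : ℕ}, q = (i : ℚ) / L → (q : ℝ) = (i : ℝ) / L := by
    intro q i hq
    rw [hq]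
    push_cast
    rfl
  refine ⟨L, u, v, w, hL0, hu0, hv0, hw0, ?_, cast f1, cast f2, cast f3⟩
  rw [f1, f2, f3, ← add_div, ← add_div, div_eq_one_iff_eq hL0'.ne'] at h
  exact_mod_cast h

lemma infinite_of {T : Set (ℕ × ℕ × ℕ)} (h : ∀ N : ℕ, ∃ t ∈ T, N ≤ t.2.2) : T.Infinite := by
  intro hf
  obtain ⟨M, hM⟩ := (hf.image fun t => t.2.2).bddAbove
  obtain ⟨t, ht, hN⟩ := h (M + 1)
  have := hM ⟨t, ht, rfl⟩
  simp only at this
  omega

lemma part1 {α β γ : ℚ} (hα : 0 < α) (hβ : 0 < β) (hγ : 0 < γ) (h : α + β + γ = 1)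
    (K θ₁ θ₂ : ℝ) (h0 : 0 ≤ θ₁) (h12 : θ₁ < θ₂) (h1 : θ₂ ≤ 1) :
    {t ∈ Triples K α β γ | θ₁ * t.2.2 < t.1 ∧ (t.1 : ℝ) < θ₂ * t.2.2}.Infinite := by
  obtain ⟨L, u, v, w, hL, hu, hv, hw, hsum, e1, e2, e3⟩ := exists_den hα hβ hγ h
  refine infinite_of fun N => ?_
  obtain ⟨a, b, c, hN, ha, hb, hab, habc, hlow, hupp, r1, r2, r3⟩ :=
    H584.SH.main1 (n := 2 * w) (m := 2 * v) (k := 2 * u - 1) (even_two_mul w) (by omega) (by omega)
      (show 0 < (2 * θ₁ + θ₂) / 3 by linarith) (show (2 * θ₁ + θ₂) / 3 < (θ₁ + 2 * θ₂) / 3 by linarith)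
      (show (θ₁ + 2 * θ₂) / 3 < 1 by linarith) K N
  have hc0 : (0 : ℝ) < c := by exact_mod_cast (by omega : 0 < c)
  have hL' : (0 : ℝ) < L := by exact_mod_cast hL
  have k1 : ((2 * u - 1 + 1 : ℕ) : ℝ) / (2 * w + 2 * v + (2 * u - 1) + 1 : ℕ) = α := by
    have i1 : 2 * u - 1 + 1 = 2 * u := by omega
    have i2 : 2 * w + 2 * v + (2 * u - 1) + 1 = 2 * L := by omega
    rw [i1, i2, e1]
    push_cast
    field_simp
  have k2 : ((2 * v : ℕ) : ℝ) / (2 * w + 2 * v + (2 * u - 1) + 1 : ℕ) = β := by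
    have i2 : 2 * w + 2 * v + (2 * u - 1) + 1 = 2 * L := by omega
    rw [i2, e2]
    push_cast
    field_simp
  have k3 : ((2 * w : ℕ) : ℝ) / (2 * w + 2 * v + (2 * u - 1) + 1 : ℕ) = γ := by
    have i2 : 2 * w + 2 * v + (2 * u - 1) + 1 = 2 * L := by omega
    rw [i2, e3]
    push_cast
    field_simp
  rw [k1] at r1
  rw [k2] at r2
  rw [k3] at r3
  refine ⟨(a, b, c), ⟨⟨ha, hb, hab, habc, r1, r2, r3⟩, ?_, ?_⟩, hN⟩
  · refine lt_of_le_of_lt ?_ hlow
    exact mul_le_mul_of_nonneg_right (by linarith) hc0.le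
  · refine lt_of_lt_of_le hupp ?_
    exact mul_le_mul_of_nonneg_right (by linarith) hc0.le

lemma part2 {β : ℚ} (h0 : 0 < β) (h1 : β < 1) (K : ℝ) :
    {b : ℕ | 0 < b ∧ K * R b ≤ (b : ℝ) ^ (β : ℝ) ∧
      K * R (b + 1) ≤ ((b + 1 : ℕ) : ℝ) ^ (1 - β : ℝ)}.Infinite := by
  obtain ⟨a, ha⟩ := Int.eq_ofNat_of_zero_le (Rat.num_pos.2 h0).le
  have ha0 : 0 < a := by have := Rat.num_pos.2 h0; omega
  have hlt : a < β.den := by
    have := Rat.num_lt_denom_iff.2 h1
    omega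
  have e : (β : ℝ) = (a : ℝ) / β.den := by
    rw [Rat.cast_def, ha]
    simp
  have hd : (0 : ℝ) < β.den := by exact_mod_cast β.pos
  intro hf
  obtain ⟨M, hM⟩ := hf.bddAbove
  obtain ⟨b, hN, hb, r1, r2⟩ := H584.SH.main2 (n := 2 * (β.den - a)) (m := 2 * a - 1)
    (even_two_mul _) (by omega) K (M + 1)
  have i2 : 2 * (β.den - a) + (2 * a - 1) + 1 = 2 * β.den := by omega
  have k1 : ((2 * a - 1 + 1 : ℕ) : ℝ) / (2 * (β.den - a) + (2 * a - 1) + 1 : ℕ) = β := by
    have i1 : 2 * a - 1 + 1 = 2 * a := by omega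
    rw [i1, i2, e]
    push_cast
    field_simp
  have k2 : ((2 * (β.den - a) : ℕ) : ℝ) / (2 * (β.den - a) + (2 * a - 1) + 1 : ℕ) = 1 - β := by
    rw [i2, e]
    push_cast [hlt.le]
    field_simp
  rw [k1] at r1
  rw [k2] at r2
  have := hM ⟨hb, r1, r2⟩
  omega

lemma R_one_lt {n : ℕ} (hn : 2 ≤ n) : 2 ≤ R n := by
  obtain ⟨p, hp, hpn⟩ := Nat.exists_prime_and_dvd (show n ≠ 1 by omega)
  have h1 : p ∣ R n := Finset.dvd_prod_of_mem _ (Nat.mem_primeFactors.2 ⟨hp, hpn, by omega⟩)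
  have h2 : 0 < R n := Finset.prod_pos fun q hq => (Nat.prime_of_mem_primeFactors hq).pos
  exact hp.two_le.trans (Nat.le_of_dvd h2 h1)

/-- (1) Let `α`, `β`, `γ` be positive rational numbers with `α + β + γ = 1`. For every `K` there are
infinitely many triples of coprime positive integers `a + b = c` with `K R(a) ≤ a ^ α`,
`K R(b) ≤ b ^ β`, `K R(c) ≤ c ^ γ`, and the quotients `a / c` are dense in `[0, 1]`. (2) Let `β` be
rational, `0 < β < 1`. For every `K` there are infinitely many `b` with `K R(b) ≤ b ^ β` and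
`K R(b + 1) ≤ (b + 1) ^ (1 - β)`. (3) So if `α`, `β`, `γ` are rational, nonnegative, with
`α + β + γ = 1`, then there are infinitely many triples with `R(a) ≤ a ^ α`, `R(b) ≤ b ^ β`,
`R(c) ≤ c ^ γ` if and only if `0 < γ < 1`. -/
theorem result :
    (∀ α β γ : ℚ, 0 < α → 0 < β → 0 < γ → α + β + γ = 1 →
      ∀ K θ₁ θ₂ : ℝ, 0 ≤ θ₁ → θ₁ < θ₂ → θ₂ ≤ 1 →
        {t ∈ Triples K α β γ | θ₁ * t.2.2 < t.1 ∧ (t.1 : ℝ) < θ₂ * t.2.2}.Infinite) ∧
    (∀ β : ℚ, 0 < β → β < 1 → ∀ K : ℝ, {b : ℕ | 0 < b ∧ K * R b ≤ (b : ℝ) ^ (β : ℝ) ∧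
      K * R (b + 1) ≤ ((b + 1 : ℕ) : ℝ) ^ (1 - β : ℝ)}.Infinite) ∧
    ∀ α β γ : ℚ, 0 ≤ α → 0 ≤ β → 0 ≤ γ → α + β + γ = 1 →
      ((Triples 1 α β γ).Infinite ↔ 0 < γ ∧ γ < 1) := by
  refine ⟨fun α β γ hα hβ hγ h K θ₁ θ₂ h0 h12 h1 => part1 hα hβ hγ h K θ₁ θ₂ h0 h12 h1,
    fun β h0 h1 K => part2 h0 h1 K, fun α β γ hα hβ hγ h => ⟨fun hinf => ?_, ?_⟩⟩
  · refine ⟨lt_of_le_of_ne hγ fun h0 => hinf ?_, ?_⟩
    · -- `γ = 0`
      have : Triples 1 α β γ = ∅ := by
        ext ⟨a, b, c⟩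
        simp only [Set.mem_empty_iff_false, iff_false]
        rintro ⟨ha, hb, -, hc, -, -, h3⟩
        simp only at ha hb hc h3
        rw [← h0, Rat.cast_zero, Real.rpow_zero, one_mul] at h3
        have h4 := R_one_lt (n := c) (by omega)
        have h5 : (2 : ℝ) ≤ R c := by exact_mod_cast h4
        linarith
      rw [this]
      exact Set.finite_empty
    · -- `γ = 1`
      by_contra hcon
      have hγ1 : γ = 1 := by linarith
      have hα0 : α = 0 := by linarith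
      have hβ0 : β = 0 := by linarith
      refine hinf ((Set.finite_singleton ((1, 1, 2) : ℕ × ℕ × ℕ)).subset ?_)
      rintro ⟨a, b, c⟩ ⟨ha, hb, -, hc, h1, h2, -⟩
      simp only at ha hb hc h1 h2
      rw [hα0, Rat.cast_zero, Real.rpow_zero, one_mul] at h1
      rw [hβ0, Rat.cast_zero, Real.rpow_zero, one_mul] at h2
      have k1 : a = 1 := by
        by_contra hne
        have h4 := R_one_lt (n := a) (by omega)
        have h5 : (2 : ℝ) ≤ R a := by exact_mod_cast h4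
        linarith
      have k2 : b = 1 := by
        by_contra hne
        have h4 := R_one_lt (n := b) (by omega)
        have h5 : (2 : ℝ) ≤ R b := by exact_mod_cast h4
        linarith
      subst k1 k2
      simp [← hc]
  · rintro ⟨h0, h1⟩
    have hR1 : R 1 = 1 := by simp [R]
    rcases eq_or_lt_of_le hα with ha | ha
    · -- `α = 0`
      have hβ' : 0 < β := by linarith
      have hβ1 : β < 1 := by linarith
      have hg : (1 - β : ℝ) = (γ : ℝ) := by
        have : γ = 1 - β := by linarith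
        rw [this]
        push_cast
        ring
      have h2 := part2 hβ' hβ1 1
      refine infinite_of fun N => ?_
      obtain ⟨b, ⟨hb, r1, r2⟩, hN⟩ := h2.exists_gt N
      rw [hg] at r2
      refine ⟨(1, b, b + 1), ⟨one_pos, hb, Nat.coprime_one_left b, by simp only; ring, ?_, r1, r2⟩,
        by simp only; omega⟩
      simp only
      rw [← ha, Rat.cast_zero, Real.rpow_zero, hR1]
      simp
    · rcases eq_or_lt_of_le hβ with hb | hb
      · -- `β = 0`
        have hα1 : α < 1 := by linarith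
        have hg : (1 - α : ℝ) = (γ : ℝ) := by
          have : γ = 1 - α := by linarith
          rw [this]
          push_cast
          ring
        have h2 := part2 ha hα1 1
        refine infinite_of fun N => ?_
        obtain ⟨b, ⟨hb', r1, r2⟩, hN⟩ := h2.exists_gt N
        rw [hg] at r2
        refine ⟨(b, 1, b + 1), ⟨hb', one_pos, Nat.coprime_one_right b, rfl, r1, ?_, r2⟩,
          by simp only; omega⟩
        simp only
        rw [← hb, Rat.cast_zero, Real.rpow_zero, hR1]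
        simp
      · exact (part1 ha hb h0 h 1 0 1 le_rfl one_pos le_rfl).mono (Set.sep_subset _ _)

end Pool.Agent.Results.MP_7aad9f_nt.MazurBoundary
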