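import Mathlib
import Pool.Agent.H584.Maz.Own

/-!
# Mazur's question on the radicals of the members of abc triples, with one member prescribed

Mazur (Questions about powers of numbers, 2000) asked for the number of the triples of coprime
positive integers `a + b = c ≤ X` with `R a ≤ a ^ α`, `R b ≤ b ^ β`, `R c ≤ c ^ γ`; the abc
conjecture says that it is bounded if `α + β + γ < 1`. For `α + β + γ > 1` the expected number is
`X ^ (α + β + γ - 1 + o(1))`, proved by Kane (2015) for `α + β + γ ≥ 2`.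

Here one member of the triple is prescribed, and arbitrary. For every `c` the number of the coprime
`a + b = c` with `R a ≤ R₁`, `R b ≤ R₂` is `R₁ R₂ / c`, up to a factor `c ^ (± ε)`, as soon as
`R₁ R₂ ≥ c ^ (5 / 3)`; the same is true for the coprime `k + b = c` with `X / 2 ≤ c ≤ X` for every
`k ≤ X / 2`. The upper bound has the error term `c ^ (2 / 3 + ε)`. Hence the expected number of the
triples of Mazur's question is proved whenever two of the three exponents have sum at least `5 / 3`,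
also for `α + β + γ < 2`.
-/

set_option autoImplicit false

namespace Pool.Agent.Results.MP_7aad9f_nt.MazurOneMember

open Filter Topology Pool.Agent.H584.Maz

/-- the radical: the product of the distinct primes dividing `m` -/
def R (m : ℕ) : ℕ := ∏ p ∈ m.primeFactors, p

/-- the pairs `(a, b)` of coprime positive integers with `a + b = c`, `R a ≤ R₁` and `R b ≤ R₂` -/
def Sums (c : ℕ) (R₁ R₂ : ℝ) : Set (ℕ × ℕ) :=
  {t | 0 < t.1 ∧ 0 < t.2 ∧ Nat.Coprime t.1 t.2 ∧ t.1 + t.2 = c ∧ (R t.1 : ℝ) ≤ R₁ ∧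
    (R t.2 : ℝ) ≤ R₂}

/-- the pairs `(b, c)` of positive integers with `b` prime to `k`, `k + b = c`, `X / 2 ≤ c ≤ X`,
`R b ≤ R₁` and `R c ≤ R₂` -/
def Differences (k X : ℕ) (R₁ R₂ : ℝ) : Set (ℕ × ℕ) :=
  {t | 0 < t.1 ∧ Nat.Coprime k t.1 ∧ k + t.1 = t.2 ∧ X ≤ 2 * t.2 ∧ t.2 ≤ X ∧ (R t.1 : ℝ) ≤ R₁ ∧
    (R t.2 : ℝ) ≤ R₂}

/-- the pairs `(a, b)` of coprime positive integers with `a + b = c`, `R a ≤ a ^ α` and
`R b ≤ b ^ β` -/
def PowerSums (α β : ℝ) (c : ℕ) : Set (ℕ × ℕ) :=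
  {t | 0 < t.1 ∧ 0 < t.2 ∧ Nat.Coprime t.1 t.2 ∧ t.1 + t.2 = c ∧ (R t.1 : ℝ) ≤ (t.1 : ℝ) ^ α ∧
    (R t.2 : ℝ) ≤ (t.2 : ℝ) ^ β}

/-- the pairs `(b, c)` of positive integers with `b` prime to `k`, `k + b = c ≤ X`, `R b ≤ b ^ α`
and `R c ≤ c ^ β` -/
def PowerDifferences (α β : ℝ) (k X : ℕ) : Set (ℕ × ℕ) :=
  {t | 0 < t.1 ∧ Nat.Coprime k t.1 ∧ k + t.1 = t.2 ∧ t.2 ≤ X ∧ (R t.1 : ℝ) ≤ (t.1 : ℝ) ^ α ∧
    (R t.2 : ℝ) ≤ (t.2 : ℝ) ^ β}

/-- the triples `(a, b, c)` of coprime positive integers with `a + b = c ≤ X` and `R a ≤ a ^ α`,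
`R b ≤ b ^ β`, `R c ≤ c ^ γ` -/
def Mazur (α β γ : ℝ) (X : ℕ) : Set (ℕ × ℕ × ℕ) :=
  {t | 0 < t.1 ∧ 0 < t.2.1 ∧ Nat.Coprime t.1 t.2.1 ∧ t.1 + t.2.1 = t.2.2 ∧ t.2.2 ≤ X ∧
    (R t.1 : ℝ) ≤ (t.1 : ℝ) ^ α ∧ (R t.2.1 : ℝ) ≤ (t.2.1 : ℝ) ^ β ∧
    (R t.2.2 : ℝ) ≤ (t.2.2 : ℝ) ^ γ}

lemma ncard_le {T : Type*} {S : Set T} {B : ℝ} (hB : 0 ≤ B)
    (h : ∀ F : Finset T, (∀ t ∈ F, t ∈ S) → (F.card : ℝ) ≤ B) : (S.ncard : ℝ) ≤ B := by
  by_cases hS : S.Finite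
  · rw [Set.ncard_eq_toFinset_card S hS]
    exact h _ fun t ht => by simpa using ht
  · rw [Set.Infinite.ncard hS]
    simpa using hB

lemma le_ncard {T : Type*} {S : Set T} (hS : S.Finite) {B : ℝ} (F : Finset T)
    (hF : ∀ t ∈ F, t ∈ S) (h : B ≤ (F.card : ℝ)) : B ≤ (S.ncard : ℝ) := by
  refine h.trans ?_
  have h1 : F.card ≤ S.ncard := by
    rw [← Set.ncard_coe_finset]
    exact Set.ncard_le_ncard (fun t ht => hF t (Finset.mem_coe.1 ht)) hS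
  exact_mod_cast h1

lemma finite_pairs (N : ℕ) {S : Set (ℕ × ℕ)} (h : ∀ t ∈ S, t.1 ≤ N ∧ t.2 ≤ N) : S.Finite := by
  refine ((Set.finite_Iic N).prod (Set.finite_Iic N)).subset fun t ht => ?_
  exact Set.mem_prod.2 ⟨(h t ht).1, (h t ht).2⟩

lemma finite_triples (N : ℕ) {S : Set (ℕ × ℕ × ℕ)}
    (h : ∀ t ∈ S, t.1 ≤ N ∧ t.2.1 ≤ N ∧ t.2.2 ≤ N) : S.Finite := by
  refine ((Set.finite_Iic N).prod ((Set.finite_Iic N).prod (Set.finite_Iic N))).subset fun t ht => ?_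
  exact Set.mem_prod.2 ⟨(h t ht).1, Set.mem_prod.2 ⟨(h t ht).2.1, (h t ht).2.2⟩⟩

lemma sums_finite (c : ℕ) (R₁ R₂ : ℝ) : (Sums c R₁ R₂).Finite := by
  refine finite_pairs c fun t ht => ?_
  obtain ⟨e1, e2, e3, e4, e5, e6⟩ := ht
  omega

lemma differences_finite (k X : ℕ) (R₁ R₂ : ℝ) : (Differences k X R₁ R₂).Finite := by
  refine finite_pairs X fun t ht => ?_
  obtain ⟨e1, e2, e3, e4, e5, e6⟩ := ht
  omega

lemma powerSums_finite (α β : ℝ) (c : ℕ) : (PowerSums α β c).Finite := by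
  refine finite_pairs c fun t ht => ?_
  obtain ⟨e1, e2, e3, e4, e5, e6⟩ := ht
  omega

lemma powerDifferences_finite (α β : ℝ) (k X : ℕ) : (PowerDifferences α β k X).Finite := by
  refine finite_pairs X fun t ht => ?_
  obtain ⟨e1, e2, e3, e4, e5, e6⟩ := ht
  omega

lemma mazur_finite (α β γ : ℝ) (X : ℕ) : (Mazur α β γ X).Finite := by
  refine finite_triples X fun t ht => ?_
  obtain ⟨e1, e2, e3, e4, e5, e6⟩ := ht
  omega

lemma upper_bounds (ε : ℝ) (hε : 0 < ε) : ∃ K : ℝ, (∀ c : ℕ, 1 ≤ c → ∀ R₁ R₂ : ℝ, 0 ≤ R₁ →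
    0 ≤ R₂ → ((Sums c R₁ R₂).ncard : ℝ) ≤
      K * (c : ℝ) ^ ε * (R₁ * R₂ / c + (c : ℝ) ^ (2 / 3 : ℝ))) ∧
    ∀ k X : ℕ, 1 ≤ X → ∀ R₁ R₂ : ℝ, 0 ≤ R₁ → 0 ≤ R₂ → ((Differences k X R₁ R₂).ncard : ℝ) ≤
      K * (X : ℝ) ^ ε * (R₁ * R₂ / X + (X : ℝ) ^ (2 / 3 : ℝ)) := by
  obtain ⟨K, hK, h⟩ := upper ε hε
  refine ⟨K, fun c hc R₁ R₂ hR₁ hR₂ => ?_, fun k X hX R₁ R₂ hR₁ hR₂ => ?_⟩
  · have hc0 : (0 : ℝ) < c := by exact_mod_cast hc
    refine ncard_le (by positivity) fun F hF => ?_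
    refine h c hc 1 c R₁ R₂ F (Or.inl rfl) hR₁ hR₂ fun t ht => ?_
    obtain ⟨e1, e2, e3, e4, e5, e6⟩ := hF t ht
    exact ⟨e1, e2, e3, by omega, by omega, by omega, by omega, e5, e6⟩
  · have hX0 : (0 : ℝ) < X := by exact_mod_cast hX
    refine ncard_le (by positivity) fun F hF => ?_
    have hcard : F.card = (F.image Prod.swap).card :=
      (Finset.card_image_of_injective _ Prod.swap_injective).symm
    rw [hcard]
    have h1 := h X hX (-1) k R₂ R₁ (F.image Prod.swap) (Or.inr rfl) hR₂ hR₁ (by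
      intro t' ht'
      obtain ⟨t, ht, rfl⟩ := Finset.mem_image.1 ht'
      obtain ⟨e1, e2, e3, e4, e5, e6, e7⟩ := hF t ht
      refine ⟨by show 0 < t.2; omega, e1, ?_, ?_, e5, by show t.1 ≤ X; omega, Or.inl e4, e7, e6⟩
      · show Nat.Coprime t.2 t.1
        rw [← e3]
        simpa using e2
      · show (t.2 : ℤ) + -1 * t.1 = k
        omega)
    rwa [mul_comm R₂ R₁] at h1

lemma lower_bounds (ε : ℝ) (hε : 0 < ε) : ∃ X₀ : ℕ, ∀ X : ℕ, X₀ ≤ X → ∀ R₁ R₂ : ℝ,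
    0 ≤ R₁ → R₁ ≤ X → 0 ≤ R₂ → R₂ ≤ X → (X : ℝ) ^ (1 + ε) ≤ R₁ * R₂ →
    R₁ * R₂ / (X : ℝ) ^ (1 + ε) ≤ ((Sums X R₁ R₂).ncard : ℝ) ∧
    ∀ k : ℕ, 1 ≤ k → 2 * k ≤ X →
      R₁ * R₂ / (X : ℝ) ^ (1 + ε) ≤ ((Differences k X R₁ R₂).ncard : ℝ) := by
  obtain ⟨X₀, hX₀, h⟩ := lower ε hε
  refine ⟨max X₀ 8, fun X hX R₁ R₂ h1 h2 h3 h4 h5 => ?_⟩
  have k1 : X₀ ≤ X := (le_max_left _ _).trans hX
  have k2 : 8 ≤ X := (le_max_right _ _).trans hX
  have hX0 : (0 : ℝ) < X := by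
    have : 0 < X := by omega
    exact_mod_cast this
  have hrw : ∀ r : ℝ, r / (X : ℝ) ^ (1 + ε) = r / X * ((X : ℝ) ^ ε)⁻¹ := by
    intro r
    rw [Real.rpow_add hX0, Real.rpow_one]
    field_simp
  rw [hrw]
  constructor
  · obtain ⟨G, hG, hGc⟩ := h X k1 X ((X + 3) / 4) (by omega) le_rfl (by omega) (by omega) R₁ R₂ h1 h2
      h3 h4 h5
    refine le_ncard (sums_finite _ _ _) (G.image fun a => (a, X - a)) ?_ ?_
    · intro t ht
      obtain ⟨a, ha, rfl⟩ := Finset.mem_image.1 ht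
      obtain ⟨e1, e2, e3, e4, e5⟩ := hG a ha
      have g2 : a < X := by omega
      refine ⟨by show 0 < a; omega, by show 0 < X - a; omega, ?_, by show a + (X - a) = X; omega,
        e4, e5 (X - a) (by omega) (by omega) (Or.inl (by omega))⟩
      show Nat.Coprime a (X - a)
      rw [Nat.coprime_sub_self_right g2.le]
      exact e3
    · rw [Finset.card_image_of_injective _ (fun a b hab => congrArg Prod.fst hab)]
      exact hGc
  · intro k hk hkX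
    obtain ⟨G, hG, hGc⟩ := h X k1 k ((3 * X + 3) / 4) hk (by omega) (by omega) (by omega) R₂ R₁ h3 h4
      h1 h2 (by rwa [mul_comm])
    have hinj : Set.InjOn (fun a => (a - k, a)) (G : Set ℕ) := fun a _ b _ hab =>
      congrArg Prod.snd hab
    refine le_ncard (differences_finite _ _ _ _) (G.image fun a => (a - k, a)) ?_ ?_
    · intro t ht
      obtain ⟨a, ha, rfl⟩ := Finset.mem_image.1 ht
      obtain ⟨e1, e2, e3, e4, e5⟩ := hG a ha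
      have g4 : k ≤ a := by omega
      refine ⟨by show 0 < a - k; omega, ?_, by show k + (a - k) = a; omega,
        by show X ≤ 2 * a; omega, by show a ≤ X; omega,
        e5 (a - k) (by omega) (by omega) (Or.inr (by omega)), e4⟩
      show Nat.Coprime k (a - k)
      rw [Nat.coprime_sub_self_right g4]
      exact e3.symm
    · rw [Finset.card_image_of_injOn hinj, mul_comm R₁ R₂]
      exact hGc

lemma power_sums (α β : ℝ) (hα : 0 < α) (hα1 : α ≤ 1) (hβ : 0 < β) (hβ1 : β ≤ 1)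
    (hs : 5 / 3 ≤ α + β) :
    Tendsto (fun c : ℕ => Real.log ((PowerSums α β c).ncard : ℝ) / Real.log (c : ℝ)) atTop
      (𝓝 (α + β - 1)) := by
  refine tendsto_log (N := fun c : ℕ => ((PowerSums α β c).ncard : ℝ)) (fun ε hε => ?_)
    (fun ε hε => ?_)
  · obtain ⟨c₀, h⟩ := sum_lower α β hα hα1 hβ hβ1 (by linarith) ε hε
    filter_upwards [eventually_ge_atTop c₀] with c hc
    obtain ⟨F, hF, hFc⟩ := h c hc
    exact le_ncard (powerSums_finite _ _ _) F hF hFc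
  · obtain ⟨K, hK, h⟩ := sum_upper α β hα hβ hs ε hε
    refine ⟨K, hK, ?_⟩
    filter_upwards [eventually_ge_atTop 1] with c hc
    exact ncard_le (by positivity) fun F hF => h c hc F hF

lemma power_differences (α β : ℝ) (hα : 0 < α) (hα1 : α ≤ 1) (hβ : 0 < β) (hβ1 : β ≤ 1)
    (hs : 5 / 3 ≤ α + β) (k : ℕ) (hk : 1 ≤ k) :
    Tendsto (fun X : ℕ => Real.log ((PowerDifferences α β k X).ncard : ℝ) / Real.log (X : ℝ)) atTop
      (𝓝 (α + β - 1)) := by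
  refine tendsto_log (N := fun X : ℕ => ((PowerDifferences α β k X).ncard : ℝ)) (fun ε hε => ?_)
    (fun ε hε => ?_)
  · obtain ⟨c₀, h⟩ := diff_lower α β hα hα1 hβ hβ1 (by linarith) ε hε
    filter_upwards [eventually_ge_atTop c₀, eventually_ge_atTop (2 * k)] with X hX hkX
    obtain ⟨F, hF, hFc⟩ := h X hX k hk hkX
    exact le_ncard (powerDifferences_finite _ _ _ _) F hF hFc
  · obtain ⟨K, hK, h⟩ := diff_upper α β hα hβ hs ε hε
    refine ⟨K, hK, ?_⟩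
    filter_upwards [eventually_ge_atTop 1] with X hX
    exact ncard_le (by positivity) fun F hF => h X hX k F hF

lemma mazur (α β γ : ℝ) (hα : 0 < α) (hα1 : α ≤ 1) (hβ : 0 < β) (hβ1 : β ≤ 1) (hγ : 0 < γ)
    (hγ1 : γ ≤ 1) (hs : 5 / 3 ≤ α + β ∨ 5 / 3 ≤ β + γ ∨ 5 / 3 ≤ α + γ) :
    Tendsto (fun X : ℕ => Real.log ((Mazur α β γ X).ncard : ℝ) / Real.log (X : ℝ)) atTop
      (𝓝 (α + β + γ - 1)) := by
  refine tendsto_log (N := fun X : ℕ => ((Mazur α β γ X).ncard : ℝ)) (fun ε hε => ?_)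
    (fun ε hε => ?_)
  · obtain ⟨c₀, h⟩ := mazur_lower α β γ hα hα1 hβ hβ1 hγ hγ1
      (by rcases hs with h | h | h
          · exact Or.inl (by linarith)
          · exact Or.inr (Or.inl (by linarith))
          · exact Or.inr (Or.inr (by linarith))) ε hε
    filter_upwards [eventually_ge_atTop c₀] with X hX
    obtain ⟨F, hF, hFc⟩ := h X hX
    exact le_ncard (mazur_finite _ _ _ _) F hF hFc
  · obtain ⟨K, hK, h⟩ := mazur_upper α β γ hα hβ hγ hs ε hε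
    refine ⟨K, hK, ?_⟩
    filter_upwards [eventually_ge_atTop 1] with X hX
    exact ncard_le (by positivity) fun F hF => h X hX F hF

/-- **Triples with one prescribed member and two members of restricted radical.** (1) An upper bound
for the number of the triples with a prescribed largest member `c` and `R a ≤ R₁`, `R b ≤ R₂`, and
for the number of those with a prescribed smaller member `k`. (2) A lower bound of the same order
`R₁ R₂ / c`. (3) The numbers for `R₁ = a ^ α`, `R₂ = b ^ β`, `α + β ≥ 5 / 3`, for every single `c`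
and for every single `k`. (4) The number of the triples of Mazur's question if two of the three
exponents have sum at least `5 / 3`. -/
theorem result :
    (∀ ε : ℝ, 0 < ε → ∃ K : ℝ, (∀ c : ℕ, 1 ≤ c → ∀ R₁ R₂ : ℝ, 0 ≤ R₁ → 0 ≤ R₂ →
      ((Sums c R₁ R₂).ncard : ℝ) ≤ K * (c : ℝ) ^ ε * (R₁ * R₂ / c + (c : ℝ) ^ (2 / 3 : ℝ))) ∧
      ∀ k X : ℕ, 1 ≤ X → ∀ R₁ R₂ : ℝ, 0 ≤ R₁ → 0 ≤ R₂ →
        ((Differences k X R₁ R₂).ncard : ℝ) ≤
          K * (X : ℝ) ^ ε * (R₁ * R₂ / X + (X : ℝ) ^ (2 / 3 : ℝ))) ∧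
    (∀ ε : ℝ, 0 < ε → ∃ X₀ : ℕ, ∀ X : ℕ, X₀ ≤ X → ∀ R₁ R₂ : ℝ, 0 ≤ R₁ → R₁ ≤ X → 0 ≤ R₂ →
      R₂ ≤ X → (X : ℝ) ^ (1 + ε) ≤ R₁ * R₂ →
        R₁ * R₂ / (X : ℝ) ^ (1 + ε) ≤ ((Sums X R₁ R₂).ncard : ℝ) ∧
        ∀ k : ℕ, 1 ≤ k → 2 * k ≤ X →
          R₁ * R₂ / (X : ℝ) ^ (1 + ε) ≤ ((Differences k X R₁ R₂).ncard : ℝ)) ∧
    (∀ α β : ℝ, 0 < α → α ≤ 1 → 0 < β → β ≤ 1 → 5 / 3 ≤ α + β →
      Tendsto (fun c : ℕ => Real.log ((PowerSums α β c).ncard : ℝ) / Real.log (c : ℝ)) atTop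
        (𝓝 (α + β - 1)) ∧
      ∀ k : ℕ, 1 ≤ k →
        Tendsto (fun X : ℕ => Real.log ((PowerDifferences α β k X).ncard : ℝ) / Real.log (X : ℝ))
          atTop (𝓝 (α + β - 1))) ∧
    (∀ α β γ : ℝ, 0 < α → α ≤ 1 → 0 < β → β ≤ 1 → 0 < γ → γ ≤ 1 →
      (5 / 3 ≤ α + β ∨ 5 / 3 ≤ β + γ ∨ 5 / 3 ≤ α + γ) →
      Tendsto (fun X : ℕ => Real.log ((Mazur α β γ X).ncard : ℝ) / Real.log (X : ℝ)) atTop
        (𝓝 (α + β + γ - 1))) :=
  ⟨upper_bounds, lower_bounds,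
    fun α β hα hα1 hβ hβ1 hs => ⟨power_sums α β hα hα1 hβ hβ1 hs,
      power_differences α β hα hα1 hβ hβ1 hs⟩,
    mazur⟩

end Pool.Agent.Results.MP_7aad9f_nt.MazurOneMember
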